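import Mathlib
import Pool.Agent.U914.WP.GK

/-!
# The mean square of the number of representations by `k` values of a polynomial of degree `k`, for almost all
polynomials

The question asks for `∑_{n ≤ X} r_{k,k}(n) ^ 2 < X ^ (1 + ε)` for the sums of `k` `k`-th powers. We prove this
bound, and its analogue for every number of summands, for the integer sequences `⌊f(1)⌋, ⌊f(2)⌋, …` of almost all
polynomials `f(x) = a x ^ k + θ_{k-1} x ^ (k-1) + … + θ_1 x` with given leading coefficient `a > 0`.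
-/

set_option autoImplicit false

namespace Pool.Agent.Results.MP_df17e9_nt.MeanSquareAlmostAll

open MeasureTheory Filter

/-- **The mean square for almost all polynomials.** Let `k ≥ 1` and `a > 0`. For almost all `θ ∈ ℝ ^ (k-1)`
(Lebesgue measure) the polynomial `f(x) = a x ^ k + θ_{k-1} x ^ (k-1) + … + θ_1 x` has this property: for every
`l ≥ 1`, every `ε > 0` and all large `X`, the sum over `1 ≤ n ≤ X` of the squared number of representations
`n = ⌊f(x₁)⌋ + … + ⌊f(x_l)⌋` with positive integers `x_i` is at most `X ^ (max (l/k) (2l/k - 1) + ε)`. For `l = k`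
this is `X ^ (1 + ε)`. -/
theorem result (k : ℕ) (hk : 1 ≤ k) (a : ℝ) (ha : 0 < a) :
    ∀ᵐ θ : Fin (k - 1) → ℝ, ∀ l : ℕ, 1 ≤ l → ∀ ε : ℝ, 0 < ε → ∀ᶠ X : ℕ in atTop,
      ∑ n ∈ Finset.Icc 1 X, (({x : Fin l → ℕ | (∀ i, 0 < x i) ∧
          ∑ i, ⌊a * (x i : ℝ) ^ k + ∑ j : Fin (k - 1), θ j * (x i : ℝ) ^ ((j : ℕ) + 1)⌋ = (n : ℤ)}.ncard : ℕ) : ℝ) ^ 2 ≤
        (X : ℝ) ^ (max ((l : ℝ) / k) (2 * l / k - 1) + ε) := by
  obtain ⟨d, rfl⟩ : ∃ d, k = d + 1 := ⟨k - 1, by omega⟩
  exact Pool.Agent.U914.WP.mean_sq d a ha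

end Pool.Agent.Results.MP_df17e9_nt.MeanSquareAlmostAll
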